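import Pool.Agent.H78.S.Targets

/-!
# Theorem S (MP_9d0bb7_lc): row GMT, every element has a matrix
-/

set_option autoImplicit false

open Set Pool.Agent.H77.BC Pool.Agent.H78.S Matrix
open scoped Pointwise

namespace Pool.Agent.H45.S

theorem pf_GMT (hPRD : T_PRD) (hGMG : T_GMG) (hGMA : T_GMA) (hCJH : T_CJH) (hIRG : T_IRG) :
    T_GMT := by
  intro M U G S _ _ _ _ m x hF hN ω hω K _ y hy g
  have _ := hF.dg
  have _ := hF.ful
  obtain ⟨g1, g2, -, -⟩ := hGMG U x hF hN ω hω K y hy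
  obtain ⟨a1, a2, a3, -⟩ := hGMA U x hF hN ω hω K y hy
  let G' : Subgroup G :=
    { carrier := {g | ∃ A, Gm U G x y g A}
      one_mem' := ⟨1, a3⟩
      mul_mem' := by
        rintro a b ⟨A, hA⟩ ⟨B, hB⟩
        exact ⟨A * B, a1 a b A B hA hB⟩
      inv_mem' := by
        rintro a ⟨A, hA⟩
        exact ⟨A⁻¹, a2 a A hA⟩ }
  have hT : ∀ c : Fin (m + 1 + 2), ∀ t ∈ TT U G x c, t ∈ G' := by
    intro c t ht
    have h1 := (hCJH U x hF (ω (Equiv.swap 0 c)) (Equiv.swap 0 c) (hω.pm _)).2.1 0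
    rw [Equiv.swap_apply_left] at h1
    rw [← h1] at ht
    have h2 : (ω (Equiv.swap 0 c))⁻¹ * t * (ω (Equiv.swap 0 c))⁻¹⁻¹ ∈ TT U G x 0 := ht
    rw [inv_inv] at h2
    have h3 : (ω (Equiv.swap 0 c))⁻¹ * t * ω (Equiv.swap 0 c) ∈ G' := g1 _ h2
    have h4 : ω (Equiv.swap 0 c) ∈ G' := g2 _
    have h5 := G'.mul_mem (G'.mul_mem h4 h3) (G'.inv_mem h4)
    have h6 : ω (Equiv.swap 0 c) * ((ω (Equiv.swap 0 c))⁻¹ * t * ω (Equiv.swap 0 c)) *
        (ω (Equiv.swap 0 c))⁻¹ = t := by group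
    rwa [h6] at h5
  have hP := hPRD U x hF hN (by
    intro g hg
    have h1 := hω.uni g 1 (fun i => hg i)
    rw [h1, map_one])
  have hP' : Big U ((⊤ : Subgroup G) : Set G) {g : G | ∃ t : Fin (m + 1 + 2) → G,
      (∀ c, t c ∈ TT U G x c) ∧ g = (List.ofFn t).prod} := by
    rw [Subgroup.coe_top]
    exact hP
  obtain ⟨-, -, -, h4⟩ := (hIRG U (⊤ : Subgroup G) hF.conn).2 _ hP'
  obtain ⟨a, ⟨t, ht, rfl⟩, b, ⟨s, hs, rfl⟩, hab⟩ := h4 _ hP' g (Subgroup.mem_top g)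
  have key : ∀ t : Fin (m + 1 + 2) → G, (∀ c, t c ∈ TT U G x c) → (List.ofFn t).prod ∈ G' := by
    intro t ht
    refine Subgroup.list_prod_mem _ ?_
    intro z hz
    obtain ⟨c, rfl⟩ := (List.mem_ofFn' t z).1 hz
    exact hT c _ (ht c)
  have h5 : g ∈ G' := by
    rw [hab]
    exact G'.mul_mem (key t ht) (key s hs)
  exact h5

end Pool.Agent.H45.S
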