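import Pool.Agent.H78.S.Targets

/-!
# Theorem S (MP_9d0bb7_lc): row IDA, the ring is coded
-/

set_option autoImplicit false

open Set Pool.Agent.H77.BC Pool.Agent.H78.S
open scoped Pointwise

namespace Pool.Agent.H45.S

/-- the code of a type which is mapped injectively to a coded type -/
@[reducible] def cpull {M α β : Type} [Cod M α] (v : β → α) (hv : Function.Injective v) : Cod M β :=
  ⟨Cod.ι M α, inferInstance, fun b => Cod.c (v b), fun _ _ h => hv (Cod.inj (M := M) h)⟩

section pull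

variable {M α β : Type} (U : RU M) [Cod M α] (v : β → α) (hv : Function.Injective v)

theorem cpull_D (I : Set β) : @RU.D M U β (cpull v hv) I ↔ U.D (v '' I) := by
  unfold RU.D
  rw [image_image]
  exact Iff.rfl

theorem cpull_R (I : Set β) : @RU.R M U β (cpull v hv) I = U.R (v '' I) := by
  unfold RU.R
  rw [image_image]
  rfl

theorem cpull_ful (h : U.D (range v)) : @Ful M U β (cpull v hv) := by
  refine @Ful.mk M U β (cpull v hv) ?_
  rw [cpull_D, image_univ]
  exact h

theorem cpull_DFn [Ful U α] (h : U.D (range v)) : @DFn M U β α (cpull v hv) _ v := by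
  let _ := cpull (M := M) v hv
  have _ : Ful U β := cpull_ful U v hv h
  exact DFn_of_code id fun _ => rfl

end pull

theorem pf_IDA (hCTB : T_CTB) : T_IDA := by
  intro M U G S _ _ _ _ _ _ hact H X T o e hC R _ j hR
  obtain ⟨hoX, hXD, hXI, hHD, -, -, -, -, hHX, -, -, -, -, -, -, -⟩ := hCTB U hact H X T o e hC
  choose inv hinvX hinv using hR.onto
  have hinj : Function.Injective inv := fun a b h => by rw [← hinv a, ← hinv b, h]
  have hj : ∀ y ∈ X, inv (j y) = y := fun y hy => hR.inj (hinvX _) hy (hinv _)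
  have himg : ∀ I : Set R, inv '' I = {y | y ∈ X ∧ j y ∈ I} := by
    intro I
    ext y
    constructor
    · rintro ⟨r, hr, rfl⟩
      refine ⟨hinvX r, ?_⟩
      show j (inv r) ∈ I
      rw [hinv]
      exact hr
    · rintro ⟨hy, hy2⟩
      exact ⟨j y, hy2, hj y hy⟩
  have hrange : range inv = X := by
    rw [← image_univ, himg]
    ext y
    exact ⟨fun h => h.1, fun h => ⟨h, mem_univ _⟩⟩
  have hrD : U.D (range inv) := by
    rw [hrange]
    exact hXD
  let _ : Cod M R := cpull inv hinj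
  have hDI : ∀ I : Set R, U.D I ↔ U.D {y | y ∈ X ∧ j y ∈ I} := by
    intro I
    rw [← himg]
    exact cpull_D U inv hinj I
  have hRI : ∀ I : Set R, U.R I = U.R {y | y ∈ X ∧ j y ∈ I} := by
    intro I
    rw [← himg]
    exact cpull_R U inv hinj I
  have hful : Ful U R := cpull_ful U inv hinj hrD
  have hinvD : DFn U inv := cpull_DFn U inv hinj hrD
  have hφ : DFn U (fun q : (R × R) × R => (inv q.1.1, inv q.1.2, inv q.2)) := by
    refine DFn_pair (DFn_comp hinvD (DFn_comp DFn_fst DFn_fst))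
      (DFn_pair (DFn_comp hinvD (DFn_comp DFn_snd DFn_fst)) (DFn_comp hinvD DFn_snd))
  refine ⟨inferInstance, ⟨hful, ?_, ?_, ?_⟩, hDI⟩
  · have h1 := DFn_preim hφ hR.add
    have e : {p : (R × R) × R | p.2 = p.1.1 + p.1.2} =
        {q : (R × R) × R | (inv q.1.1, inv q.1.2, inv q.2) ∈
          {p : S × S × S | p.1 ∈ X ∧ p.2.1 ∈ X ∧ p.2.2 ∈ X ∧ j p.1 + j p.2.1 = j p.2.2}} := by
      ext q
      constructor
      · intro hq
        have hq' : q.2 = q.1.1 + q.1.2 := hq
        refine ⟨hinvX _, hinvX _, hinvX _, ?_⟩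
        show j (inv q.1.1) + j (inv q.1.2) = j (inv q.2)
        rw [hinv, hinv, hinv, hq']
      · rintro ⟨-, -, -, hq⟩
        have hq' : j (inv q.1.1) + j (inv q.1.2) = j (inv q.2) := hq
        rw [hinv, hinv, hinv] at hq'
        exact hq'.symm
    unfold DFn
    rw [e]
    exact h1
  · have h1 := DFn_preim hφ hR.mul
    have e : {p : (R × R) × R | p.2 = p.1.1 * p.1.2} =
        {q : (R × R) × R | (inv q.1.1, inv q.1.2, inv q.2) ∈
          {p : S × S × S | p.1 ∈ X ∧ p.2.1 ∈ X ∧ p.2.2 ∈ X ∧ j p.1 * j p.2.1 = j p.2.2}} := by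
      ext q
      constructor
      · intro hq
        have hq' : q.2 = q.1.1 * q.1.2 := hq
        refine ⟨hinvX _, hinvX _, hinvX _, ?_⟩
        show j (inv q.1.1) * j (inv q.1.2) = j (inv q.2)
        rw [hinv, hinv, hinv, hq']
      · rintro ⟨-, -, -, hq⟩
        have hq' : j (inv q.1.1) * j (inv q.1.2) = j (inv q.2) := hq
        rw [hinv, hinv, hinv] at hq'
        exact hq'.symm
    unfold DFn
    rw [e]
    exact h1
  · intro A hAD hAR
    rw [eq_top_iff]
    intro b _
    obtain ⟨h, hh, hhb⟩ := hR.full 1 b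
    have hYD : U.D {y | y ∈ X ∧ j y ∈ (A : Set R)} := (hDI _).1 hAD
    have hYn : {y | y ∈ X ∧ j y ∈ (A : Set R)}.Nonempty := ⟨o, hoX, by
      rw [hR.j0]
      exact A.zero_mem⟩
    have hXR : U.R (univ : Set R) = U.R X := by
      rw [hRI]
      congr 1
      ext y
      exact ⟨fun h => h.1, fun h => ⟨h, mem_univ _⟩⟩
    have hYR : U.R X ≤ U.R {y | y ∈ X ∧ j y ∈ (A : Set R)} := by
      rw [← hXR, ← hRI]
      exact hAR
    have hmD : DFn U (fun y : S => h • y) :=
      DFn_comp (g := fun p : G × S => p.1 • p.2) hact (DFn_pair (DFn_const h) DFn_id)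
    have hB1 : Big U X {y | y ∈ X ∧ j y ∈ (A : Set R)} :=
      ⟨_, hYD, hYn, fun y hy => hy.1, subset_rfl, hYR⟩
    have hB2 : Big U X ((fun y : S => h • y) '' {y | y ∈ X ∧ j y ∈ (A : Set R)}) := by
      refine ⟨_, DFn_image hmD hYD, hYn.image _, ?_, subset_rfl, ?_⟩
      · rintro _ ⟨y, hy, rfl⟩
        exact hHX h hh y hy.1
      · rw [(l_RKB U).inj hYD hmD hYn (fun a _ b _ hab => smul_left_cancel h hab)]
        exact hYR
    obtain ⟨y, hy1, z, hz, hyz⟩ := hXI.2.2 _ _ hB1 hB2
    have h1 : j y = j z + b := by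
      rw [← hyz]
      have := hhb z hz.1
      simpa using this
    have h2 : b = j y - j z := by
      rw [h1]
      ring
    rw [h2]
    exact A.sub_mem hy1.2 hz.2

end Pool.Agent.H45.S
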