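import Pool.Agent.H78.S.Targets

/-!
# Theorem S (MP_9d0bb7_lc): row IDB, ideals of coded rings
-/

set_option autoImplicit false

open Set Pool.Agent.H77.BC Pool.Agent.H78.S
open scoped Pointwise

namespace Pool.Agent.H45.S

section ring

variable {M : Type} {U : RU M} {R : Type} [CommRing R] [Cod M R]

/-- connected definable additive groups -/
def CA (U : RU M) {R : Type} [CommRing R] [Cod M R] (A : AddSubgroup R) : Prop :=
  U.D (A : Set R) ∧ ∀ L : AddSubgroup R, L ≤ A → U.D (L : Set R) →
    U.R (A : Set R) ≤ U.R (L : Set R) → L = A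

theorem gra_add (h : RDf U R) (A L : AddSubgroup R) (hA : U.D (A : Set R))
    (hL : U.D (L : Set R)) (hLA : L ≤ A) :
    L.relIndex A ≠ 0 ↔ U.R (A : Set R) ≤ U.R (L : Set R) := by
  have _ := h.ful
  have hDG : DG U (Multiplicative R) := by
    refine ⟨?_⟩
    have h1 : DFn U (fun p : R × R => p.1 + p.2) := h.add
    exact h1
  have h2 := l_GRA U (AddSubgroup.toSubgroup A) (AddSubgroup.toSubgroup L) hA hL
    (fun x hx => hLA hx)
  rw [AddSubgroup.relIndex_toSubgroup] at h2
  exact h2

theorem ca_sup (h : RDf U R) (A B : AddSubgroup R) (hA : CA U A) (hB : CA U B) :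
    CA U (A ⊔ B) := by
  have _ := h.ful
  have hD : U.D ((A ⊔ B : AddSubgroup R) : Set R) := by
    have h1 := DFn_image h.add (D_prod hA.1 hB.1)
    have e : ((A ⊔ B : AddSubgroup R) : Set R) =
        (fun p : R × R => p.1 + p.2) '' ((A : Set R) ×ˢ (B : Set R)) := by
      ext x
      constructor
      · intro hx
        obtain ⟨a, ha, b, hb, rfl⟩ := AddSubgroup.mem_sup.1 hx
        exact ⟨(a, b), ⟨ha, hb⟩, rfl⟩
      · rintro ⟨⟨a, b⟩, ⟨ha, hb⟩, rfl⟩
        exact AddSubgroup.mem_sup.2 ⟨a, ha, b, hb, rfl⟩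
    rw [e]
    exact h1
  refine ⟨hD, ?_⟩
  intro C hC hCD hCR
  have h1 : C.relIndex (A ⊔ B) ≠ 0 := (gra_add h _ _ hD hCD hC).2 hCR
  have key : ∀ A' : AddSubgroup R, A' ≤ A ⊔ B → CA U A' → A' ≤ C := by
    intro A' hA' hc
    have h2 : C.relIndex A' ≠ 0 := by
      intro h0
      exact h1 (AddSubgroup.relIndex_eq_zero_of_le_right hA' h0)
    have h3 : (C ⊓ A').relIndex A' ≠ 0 := by
      rwa [AddSubgroup.inf_relIndex_right]
    have h4 : U.D ((C ⊓ A' : AddSubgroup R) : Set R) := by
      rw [AddSubgroup.coe_inf]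
      exact D_inter hCD hc.1
    have h5 := (gra_add h _ _ hc.1 h4 inf_le_right).1 h3
    have h6 := hc.2 _ inf_le_right h4 h5
    rw [← h6]
    exact inf_le_left
  exact le_antisymm hC (sup_le (key A le_sup_left hA) (key B le_sup_right hB))

theorem ca_principal (h : RDf U R) (a : R) :
    CA U ((Ideal.span {a} : Ideal R) : Submodule R R).toAddSubgroup := by
  have _ := h.ful
  have hmD : DFn U (fun x : R => x * a) :=
    DFn_comp (g := fun p : R × R => p.1 * p.2) h.mul (DFn_pair DFn_id (DFn_const a))
  have hset : (((Ideal.span {a} : Ideal R) : Submodule R R).toAddSubgroup : Set R) =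
      (fun x : R => x * a) '' univ := by
    ext x
    rw [image_univ, mem_range]
    exact Ideal.mem_span_singleton'
  have hD : U.D (((Ideal.span {a} : Ideal R) : Submodule R R).toAddSubgroup : Set R) := by
    rw [hset]
    exact DFn_image hmD Ful.full
  refine ⟨hD, ?_⟩
  intro B hB hBD hBR
  let P : AddSubgroup R := B.comap (AddMonoidHom.mulRight a)
  have hPmem : ∀ x, x ∈ P ↔ x * a ∈ B := fun x => Iff.rfl
  have hPD : U.D (P : Set R) := DFn_preim hmD hBD
  have hfib : ∀ b : R, (∃ x, x * a = b) →
      U.R {x : R | x * a = b} = U.R {x : R | x * a = 0} := by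
    rintro b ⟨y, rfl⟩
    have hZD : U.D {x : R | x * a = 0} := D_eqf hmD (DFn_const 0)
    have htD : DFn U (fun x : R => x + y) :=
      DFn_comp (g := fun p : R × R => p.1 + p.2) h.add (DFn_pair DFn_id (DFn_const y))
    have h1 := (l_RKB U).inj hZD htD ⟨0, zero_mul a⟩ (fun u _ v _ huv => add_right_cancel huv)
    rw [← h1]
    congr 1
    ext x
    constructor
    · intro hx
      have hx' : x * a = y * a := hx
      refine ⟨x - y, ?_, sub_add_cancel x y⟩
      show (x - y) * a = 0
      rw [sub_mul, hx', sub_self]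
    · rintro ⟨z, hz, rfl⟩
      have hz' : z * a = 0 := hz
      show (z + y) * a = y * a
      rw [add_mul, hz', zero_add]
  have h1 := (l_RKB U).fib_eq (X := (univ : Set R)) (f := fun x : R => x * a)
    (n := U.R {x : R | x * a = 0}) Ful.full hmD ⟨0, mem_univ _⟩ (by
      rintro b ⟨x, -, hx⟩
      rw [← hfib b ⟨x, hx⟩]
      congr 1
      ext z
      exact ⟨fun hz => hz.2, fun hz => ⟨mem_univ _, hz⟩⟩)
  have himg : (fun x : R => x * a) '' (P : Set R) = (B : Set R) := by
    ext b
    constructor
    · rintro ⟨x, hx, rfl⟩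
      exact hx
    · intro hb
      have h2 : b ∈ (fun x : R => x * a) '' univ := by
        rw [← hset]
        exact hB hb
      obtain ⟨x, -, rfl⟩ := h2
      exact ⟨x, hb, rfl⟩
  have h2 := (l_RKB U).fib_eq (X := (P : Set R)) (f := fun x : R => x * a)
    (n := U.R {x : R | x * a = 0}) hPD hmD ⟨0, P.zero_mem⟩ (by
      rintro b ⟨x, hx0, hx⟩
      rw [← hfib b ⟨x, hx⟩]
      congr 1
      ext z
      constructor
      · intro hz
        exact hz.2
      · intro hz
        have hz' : z * a = b := hz
        refine ⟨?_, hz⟩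
        show z * a ∈ B
        rw [hz', ← hx]
        exact hx0)
  rw [himg] at h2
  rw [← hset] at h1
  have h3 : P = ⊤ := h.conn P hPD (by omega)
  refine le_antisymm hB ?_
  intro b hb
  have h4 : b ∈ (fun x : R => x * a) '' univ := by
    rw [← hset]
    exact hb
  obtain ⟨x, -, rfl⟩ := h4
  have h5 : x ∈ P := by
    rw [h3]
    exact AddSubgroup.mem_top x
  exact h5

theorem ca_finset (h : RDf U R) (s : Finset R) :
    CA U ((Ideal.span (s : Set R) : Ideal R) : Submodule R R).toAddSubgroup := by
  classical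
  induction s using Finset.induction_on with
  | empty =>
    have h1 := ca_principal h (0 : R)
    have e : Ideal.span ({0} : Set R) = Ideal.span ((∅ : Finset R) : Set R) := by
      simp
    rw [e] at h1
    exact h1
  | insert a s ha ih =>
    have h1 := ca_sup h _ _ (ca_principal h a) ih
    have e : ((Ideal.span ((insert a s : Finset R) : Set R) : Ideal R) :
        Submodule R R).toAddSubgroup =
        ((Ideal.span {a} : Ideal R) : Submodule R R).toAddSubgroup ⊔
          ((Ideal.span (s : Set R) : Ideal R) : Submodule R R).toAddSubgroup := by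
      rw [Finset.coe_insert, Ideal.span_insert]
      exact Submodule.sup_toAddSubgroup _ _
    rw [e]
    exact h1

theorem ca_ideal (h : RDf U R) (I : Ideal R) : CA U (I : Submodule R R).toAddSubgroup := by
  have _ := h.ful
  let T : Set ℕ := {n | ∃ s : Finset R, (s : Set R) ⊆ I ∧
    U.R ((Ideal.span (s : Set R) : Ideal R) : Set R) = n}
  have hTn : T.Nonempty := ⟨_, ∅, by simp, rfl⟩
  have hTb : BddAbove T := by
    refine ⟨U.R (univ : Set R), ?_⟩
    rintro n ⟨s, hs, rfl⟩
    exact (l_RKA U).mono (ca_finset h s).1 Ful.full ⟨0, zero_mem _⟩ (subset_univ _)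
  obtain ⟨s, hs, hsm⟩ := Nat.sSup_mem hTn hTb
  have hle : ∀ t : Finset R, (t : Set R) ⊆ I →
      U.R ((Ideal.span (t : Set R) : Ideal R) : Set R) ≤
        U.R ((Ideal.span (s : Set R) : Ideal R) : Set R) := by
    intro t ht
    rw [hsm]
    exact le_csSup hTb ⟨t, ht, rfl⟩
  have hIs : I = Ideal.span (s : Set R) := by
    classical
    refine le_antisymm ?_ (Ideal.span_le.2 hs)
    intro a ha
    have h1 : ((insert a s : Finset R) : Set R) ⊆ I := by
      rw [Finset.coe_insert]
      exact insert_subset ha hs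
    have h2 := hle _ h1
    have h3 : Ideal.span (s : Set R) ≤ Ideal.span ((insert a s : Finset R) : Set R) :=
      Ideal.span_mono (by
        rw [Finset.coe_insert]
        exact subset_insert _ _)
    have h4 := (ca_finset h (insert a s)).2
      ((Ideal.span (s : Set R) : Ideal R) : Submodule R R).toAddSubgroup h3 (ca_finset h s).1 h2
    have h5 : a ∈ ((Ideal.span ((insert a s : Finset R) : Set R) : Ideal R) :
        Submodule R R).toAddSubgroup := by
      refine Ideal.subset_span ?_
      rw [Finset.coe_insert]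
      exact mem_insert _ _
    rw [← h4] at h5
    exact h5
  rw [hIs]
  exact ca_finset h s

end ring

theorem pf_IDB : T_IDB := by
  intro M U R _ _ h
  have _ := h.ful
  refine ⟨fun I => (ca_ideal h I).1, ?_, ?_, ?_⟩
  · intro I hI
    have h1 : U.R (I : Set R) = 0 := ((l_RKA U).fin (ca_ideal h I).1 ⟨0, I.zero_mem⟩).2 hI
    have h2 := (ca_ideal h I).2 ((⊥ : Ideal R) : Submodule R R).toAddSubgroup bot_le
      (ca_ideal h ⊥).1 (by
        have h3 : U.R ((I : Submodule R R).toAddSubgroup : Set R) = 0 := h1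
        rw [h3]
        exact Nat.zero_le _)
    exact (Submodule.toAddSubgroup_injective h2).symm
  · intro I hI
    by_contra hfin
    rw [not_infinite_iff_finite] at hfin
    refine hI ?_
    have h1 : (I : Submodule R R).toAddSubgroup.relIndex ⊤ ≠ 0 := by
      rw [AddSubgroup.relIndex_top_right]
      have : Finite (R ⧸ (I : Submodule R R).toAddSubgroup) := hfin
      exact AddSubgroup.index_ne_zero_of_finite
    have h2 := (gra_add h ⊤ _ Ful.full (ca_ideal h I).1 le_top).1 h1
    have h3 := h.conn _ (ca_ideal h I).1 h2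
    rw [eq_top_iff]
    intro x _
    have h4 : x ∈ (I : Submodule R R).toAddSubgroup := by
      rw [h3]
      exact AddSubgroup.mem_top x
    exact h4
  · have hmono : StrictMono (fun I : Ideal R => U.R (I : Set R)) := by
      intro I J hIJ
      by_contra hlt
      rw [not_lt] at hlt
      have h1 := (ca_ideal h J).2 (I : Submodule R R).toAddSubgroup hIJ.le (ca_ideal h I).1 hlt
      exact hIJ.ne (Submodule.toAddSubgroup_injective h1)
    exact ⟨hmono.wellFoundedLT.wf⟩

end Pool.Agent.H45.S
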