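import Pool.Agent.H45.S.IDA
import Pool.Agent.H45.S.IDB

/-!
# Theorem S (MP_9d0bb7_lc): row IDE, ideals
-/

set_option autoImplicit false

open Set Pool.Agent.H77.BC Pool.Agent.H78.S
open scoped Pointwise

namespace Pool.Agent.H45.S

theorem pf_IDE (hIDA : T_IDA) (hIDB : T_IDB) : T_IDE := by
  intro M U G S _ _ _ _ _ _ hact H X T o e hC R _ j hR
  obtain ⟨c, hc, hD⟩ := hIDA U hact H X T o e hC R j hR
  letI := c
  obtain ⟨h1, h2, h3, h4⟩ := hIDB U R hc
  exact ⟨fun I => (hD _).1 (h1 I), h2, h3, h4⟩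

end Pool.Agent.H45.S
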