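import Pool.Agent.H78.S.Targets

/-!
# Theorem S (MP_9d0bb7_lc): row PRD, the product of the groups `TT`
-/

set_option autoImplicit false

open Set Pool.Agent.H77.BC Pool.Agent.H78.S
open scoped Pointwise

namespace Pool.Agent.H45.S

section prod

variable {M : Type} {U : RU M} {α : Type} [Cod M α] [Ful U α]

/-- the rank of a box -/
theorem box_rank (k : ℕ) (A : Fin k → Set α) (hA : ∀ i, U.D (A i) ∧ (A i).Nonempty) :
    U.D {t : Fin k → α | ∀ i, t i ∈ A i} ∧ {t : Fin k → α | ∀ i, t i ∈ A i}.Nonempty ∧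
      U.R {t : Fin k → α | ∀ i, t i ∈ A i} = ∑ i, U.R (A i) := by
  have hD : ∀ (k : ℕ) (A : Fin k → Set α), (∀ i, U.D (A i) ∧ (A i).Nonempty) →
      U.D {t : Fin k → α | ∀ i, t i ∈ A i} := fun k A hA =>
    D_forall_fin fun i => DFn_preim (DFn_apply i) (hA i).1
  have hN : ∀ (k : ℕ) (A : Fin k → Set α), (∀ i, U.D (A i) ∧ (A i).Nonempty) →
      {t : Fin k → α | ∀ i, t i ∈ A i}.Nonempty := by
    intro k A hA
    choose t ht using fun i => (hA i).2
    exact ⟨t, ht⟩
  refine ⟨hD k A hA, hN k A hA, ?_⟩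
  induction k with
  | zero =>
    rw [Finset.univ_eq_empty, Finset.sum_empty]
    exact ((l_RKA U).fin (hD 0 A hA) (hN 0 A hA)).2 (Set.toFinite _)
  | succ k ih =>
    have h1 := ih (fun i => A i.succ) fun i => hA i.succ
    have hD1 := hD k (fun i => A i.succ) fun i => hA i.succ
    have hN1 := hN k (fun i => A i.succ) fun i => hA i.succ
    have hf : DFn U (fun p : α × (Fin k → α) => (Fin.cons p.1 p.2 : Fin (k + 1) → α)) := by
      refine DFn_vec ?_
      intro i
      refine Fin.cases ?_ (fun l => ?_) i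
      · exact DFn_fst
      · exact DFn_comp (g := fun s : Fin k → α => s l) (f := fun p : α × (Fin k → α) => p.2)
          (DFn_apply l) DFn_snd
    have h2 := (l_RKB U).inj (D_prod (hA 0).1 hD1) hf ((hA 0).2.prod hN1) (by
      rintro ⟨a, s⟩ _ ⟨b, r⟩ _ h
      have h3 : (Fin.cons a s : Fin (k + 1) → α) = Fin.cons b r := h
      have h4 : a = b := congrFun h3 0
      have h5 : s = r := funext fun i => congrFun h3 i.succ
      rw [h4, h5])
    have himg : (fun p : α × (Fin k → α) => (Fin.cons p.1 p.2 : Fin (k + 1) → α)) ''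
        (A 0 ×ˢ {t : Fin k → α | ∀ i, t i ∈ A i.succ}) =
        {t : Fin (k + 1) → α | ∀ i, t i ∈ A i} := by
      ext t
      constructor
      · rintro ⟨⟨a, s⟩, ⟨ha, hs⟩, rfl⟩
        intro i
        refine Fin.cases ?_ (fun l => ?_) i
        · exact ha
        · exact hs l
      · intro ht
        exact ⟨(t 0, fun i => t i.succ), ⟨ht 0, fun i => ht i.succ⟩, Fin.cons_self_tail t⟩
    rw [himg] at h2
    rw [h2, (l_RKB U).prod (hA 0).1 hD1 (hA 0).2 hN1, h1, Fin.sum_univ_succ]

end prod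

theorem DFn_ofFn {M : Type} {U : RU M} {Γ : Type} [Group Γ] [Cod M Γ] [DG U Γ] (k : ℕ) :
    DFn U (fun t : Fin k → Γ => (List.ofFn t).prod) := by
  induction k with
  | zero =>
    have e : (fun t : Fin 0 → Γ => (List.ofFn t).prod) = fun _ => 1 := by
      funext t
      simp
    rw [e]
    exact DFn_const 1
  | succ k ih =>
    have e : (fun t : Fin (k + 1) → Γ => (List.ofFn t).prod) =
        fun t => t 0 * (List.ofFn (fun i : Fin k => t i.succ)).prod := by
      funext t
      rw [List.ofFn_succ, List.prod_cons]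
    rw [e]
    refine DFn_gmul (DFn_apply 0) ?_
    exact DFn_comp (g := fun s : Fin k → Γ => (List.ofFn s).prod) ih
      (DFn_vec fun i => DFn_apply i.succ)

theorem ofFn_fix {G S : Type} [Group G] [MulAction G S] (p : S) (k : ℕ) (t : Fin k → G)
    (h : ∀ i, t i • p = p) : (List.ofFn t).prod • p = p := by
  induction k with
  | zero => simp
  | succ k ih =>
    rw [List.ofFn_succ, List.prod_cons, mul_smul, ih _ fun i => h i.succ, h 0]

theorem ofFn_inj {G S : Type} [Group G] [MulAction G S] {m : ℕ} (x : Fin m → S)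
    (T : Fin m → Subgroup G) (hT : ∀ c d, d ≠ c → ∀ t ∈ T c, t • x d = x d)
    (h1 : ∀ g : G, (∀ i, g • x i = x i) → g = 1) (k : ℕ) (f : Fin k → Fin m)
    (hf : Function.Injective f) (t s : Fin k → G) (ht : ∀ i, t i ∈ T (f i))
    (hs : ∀ i, s i ∈ T (f i)) (h : (List.ofFn t).prod = (List.ofFn s).prod) : t = s := by
  induction k with
  | zero =>
    funext i
    exact i.elim0
  | succ k ih =>
    rw [List.ofFn_succ, List.prod_cons, List.ofFn_succ, List.prod_cons] at h
    have key : ∀ r : Fin (k + 1) → G, (∀ i, r i ∈ T (f i)) →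
        (List.ofFn (fun i : Fin k => r i.succ)).prod • x (f 0) = x (f 0) := by
      intro r hr
      refine ofFn_fix _ _ _ ?_
      intro i
      refine hT (f i.succ) (f 0) ?_ _ (hr i.succ)
      intro h0
      exact absurd (hf h0) (Fin.succ_ne_zero i).symm
    have h2 : t 0 • x (f 0) = s 0 • x (f 0) := by
      have h3 := congrArg (fun g : G => g • x (f 0)) h
      simp only [mul_smul] at h3
      rwa [key t ht, key s hs] at h3
    have h3 : (s 0)⁻¹ * t 0 = 1 := by
      refine h1 _ ?_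
      intro i
      by_cases hi : i = f 0
      · rw [hi, mul_smul, h2, inv_smul_smul]
      · exact hT (f 0) i hi _ ((T (f 0)).mul_mem ((T (f 0)).inv_mem (hs 0)) (ht 0))
    have h4 : t 0 = s 0 := (inv_mul_eq_one.1 h3).symm
    rw [h4] at h
    have h5 := ih (fun i => f i.succ) (hf.comp (Fin.succ_injective k)) (fun i => t i.succ)
      (fun i => s i.succ) (fun i => ht i.succ) (fun i => hs i.succ) (mul_left_cancel h)
    funext i
    refine Fin.cases h4 (fun l => ?_) i
    exact congrFun h5 l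

theorem pf_PRD (hRNK : T_RNK) (_hCJH : T_CJH) (_hSYM : T_SYM) (hHIJ : T_HIJ) : T_PRD := by
  intro M U G S _ _ _ _ n x hF _ h1
  have _ := hF.dg
  have _ := hF.ful
  obtain ⟨-, hrk⟩ := hRNK U x hF
  have hbot : St G x univ = ⊥ := by
    rw [eq_bot_iff]
    intro g hg
    rw [Subgroup.mem_bot]
    exact h1 g fun i => hg i (mem_univ i)
  have hG : U.R (univ : Set G) = n * (n + 2) := by
    have h2 := hrk univ
    rw [hbot, ncard_univ, Nat.card_eq_fintype_card, Fintype.card_fin] at h2
    have h3 : U.R ((⊥ : Subgroup G) : Set G) = 0 := by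
      rw [Subgroup.coe_bot]
      exact ((l_RKA U).fin (D_singleton _) ⟨1, rfl⟩).2 (finite_singleton _)
    omega
  have hT : ∀ c : Fin (n + 2), U.D (TT U G x c : Set G) ∧ U.R (TT U G x c : Set G) = n ∧
      ∀ l, l ≠ c → ∀ t ∈ TT U G x c, t • x l = x l := by
    intro c
    obtain ⟨d, hd⟩ : ∃ d : Fin (n + 2), c ≠ d := by
      by_cases hc : c = 0
      · refine ⟨1, ?_⟩
        rw [hc]
        intro h
        have h2 := congrArg Fin.val h
        simp at h2
      · exact ⟨0, hc⟩
    obtain ⟨-, hTc, -, -, -, -, -, -, -, hTf, -, hTr, -⟩ := hHIJ U x hF c d hd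
    refine ⟨hTc.1, ?_, hTf⟩
    have h2 : n * (n + 2) = n * (n + 1) + n := by ring
    omega
  obtain ⟨b1, b2, b3⟩ := box_rank (U := U) (n + 2) (fun c => (TT U G x c : Set G))
    fun c => ⟨(hT c).1, ⟨1, one_mem _⟩⟩
  have hinj : InjOn (fun t : Fin (n + 2) → G => (List.ofFn t).prod)
      {t : Fin (n + 2) → G | ∀ i, t i ∈ (TT U G x i : Set G)} := by
    intro t ht s hs h
    exact ofFn_inj x (TT U G x) (fun c d hd => (hT c).2.2 d hd) h1 (n + 2) id
      Function.injective_id t s ht hs h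
  refine ⟨(fun t : Fin (n + 2) → G => (List.ofFn t).prod) ''
      {t : Fin (n + 2) → G | ∀ i, t i ∈ (TT U G x i : Set G)},
    DFn_image (DFn_ofFn (n + 2)) b1, b2.image _, subset_univ _, ?_, ?_⟩
  · rintro _ ⟨t, ht, rfl⟩
    exact ⟨t, ht, rfl⟩
  · rw [(l_RKB U).inj b1 (DFn_ofFn (n + 2)) b2 hinj, b3, hG]
    have h2 : ∑ i : Fin (n + 2), U.R (TT U G x i : Set G) = (n + 2) * n := by
      rw [Finset.sum_congr rfl fun i _ => (hT i).2.1]
      simp
    rw [h2]
    exact (mul_comm _ _).le

end Pool.Agent.H45.S
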