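import Pool.Agent.H78.S.Targets

/-!
# Theorem S (MP_9d0bb7_lc): row REG, the group `V` is regular
-/

set_option autoImplicit false

open Set Pool.Agent.H77.BC Pool.Agent.H78.S
open scoped Pointwise

namespace Pool.Agent.H45.S

theorem pf_REG (hCTB : T_CTB) (_hBGA : T_BGA) (_hORM : T_ORM) (hORB : T_ORB) (_hCCA : T_CCA) :
    T_REG := by
  intro M U G S _ _ _ _ _ _ hact H X T o e hC _ hfa V hVH hVD hVc hVn hVk
  obtain ⟨hoX, hXD, hXI, hHD, hTD, hTC, hTH, hTo, hHX, hXH, -, hTeX, hTeR, -, hHR, -⟩ :=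
    hCTB U hact H X T o e hC
  have heX := hC.mem
  have hpt : ∀ p : S, DFn U (fun g : G => g • p) := fun p =>
    DFn_comp (g := fun q : G × S => q.1 • q.2) hact (DFn_pair DFn_id (DFn_const p))
  have hmv : ∀ g : G, DFn U (fun p : S => g • p) := fun g =>
    DFn_comp (g := fun q : G × S => q.1 • q.2) hact (DFn_pair (DFn_const g) DFn_id)
  -- orbits of `T` lie in orbits of `V`
  have hVX : ∀ y ∈ X, Orb V y ⊆ X := by
    rintro y hy _ ⟨v, hv, rfl⟩
    exact hHX v (hVH hv) y hy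
  have hTV : Orb T e ⊆ Orb V e := by
    rintro _ ⟨t, ht, rfl⟩
    obtain ⟨h, hh, he⟩ := hXH e heX
    refine ⟨t * h * t⁻¹ * h⁻¹, hVk t (hTH ht) h hh, ?_⟩
    have h1 : t⁻¹ • o = o := by
      rw [inv_smul_eq_iff, hTo t ht]
    rw [he, ← mul_smul, ← mul_smul]
    have h2 : t * h * t⁻¹ * h⁻¹ * h = t * h * t⁻¹ := by group
    rw [h2, mul_smul (t * h) t⁻¹ o, h1]
  have hVeD : U.D (Orb V e) := (hORB U hact V e hVD).1
  have hVeR : U.R X ≤ U.R (Orb V e) := by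
    rw [← hTeR]
    exact (l_RKA U).mono (hORB U hact T e hTD).1 hVeD ⟨e, 1, one_mem _, (one_smul _ _).symm⟩ hTV
  have hbig : ∀ y ∈ X, Big U X (Orb V y) := by
    intro y hy
    obtain ⟨h1, hh1, he⟩ := hXH e heX
    obtain ⟨h2, hh2, hy2⟩ := hXH y hy
    have hk : h2 * h1⁻¹ ∈ H := H.mul_mem hh2 (H.inv_mem hh1)
    have hye : y = (h2 * h1⁻¹) • e := by
      rw [he, hy2, ← mul_smul, inv_mul_cancel_right]
    have hne : (Orb V e).Nonempty := ⟨e, 1, one_mem _, (one_smul _ _).symm⟩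
    have himg : (fun p : S => (h2 * h1⁻¹) • p) '' Orb V e = Orb V y := by
      ext z
      constructor
      · rintro ⟨_, ⟨v, hv, rfl⟩, rfl⟩
        refine ⟨(h2 * h1⁻¹) * v * (h2 * h1⁻¹)⁻¹, hVn _ hk v hv, ?_⟩
        rw [hye, ← mul_smul, inv_mul_cancel_right, mul_smul]
      · rintro ⟨v, hv, rfl⟩
        refine ⟨((h2 * h1⁻¹)⁻¹ * v * (h2 * h1⁻¹)) • e, ⟨_, ?_, rfl⟩, ?_⟩
        · have h3 := hVn _ (H.inv_mem hk) v hv
          rwa [inv_inv] at h3
        · show (h2 * h1⁻¹) • ((h2 * h1⁻¹)⁻¹ * v * (h2 * h1⁻¹)) • e = v • y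
          rw [hye, ← mul_smul, ← mul_smul]
          congr 1
          group
    refine ⟨Orb V y, ?_, ⟨y, 1, one_mem _, (one_smul _ _).symm⟩, hVX y hy, subset_rfl, ?_⟩
    · rw [← himg]
      exact DFn_image (hmv _) hVeD
    · rw [← himg, (l_RKB U).inj hVeD (hmv _) hne (fun a _ b _ hab => smul_left_cancel _ hab)]
      exact hVeR
  have htr : ∀ y ∈ X, ∃ v ∈ V, v • o = y := by
    intro y hy
    obtain ⟨z, ⟨v, hv, hz⟩, ⟨w, hw, hz2⟩⟩ := hXI.2.2 _ _ (hbig y hy) (hbig o hoX)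
    refine ⟨v⁻¹ * w, V.mul_mem (V.inv_mem hv) hw, ?_⟩
    rw [mul_smul, ← hz2, hz, inv_smul_smul]
  have hreg : ∀ v ∈ V, v • o = o → v = 1 := by
    intro v hv hvo
    refine hfa v (hVH hv) ?_
    intro y hy
    obtain ⟨w, hw, rfl⟩ := htr y hy
    rw [← mul_smul, hVc v hv w hw, mul_smul, hvo]
  have hinj : InjOn (fun g : G => g • o) (V : Set G) := by
    intro v hv w hw hvw
    have h1 : v • o = w • o := hvw
    have h2 : w⁻¹ * v = 1 := by
      refine hreg _ (V.mul_mem (V.inv_mem hw) hv) ?_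
      rw [mul_smul, h1, inv_smul_smul]
    have h3 := eq_inv_of_mul_eq_one_right h2
    rw [inv_inv] at h3
    exact h3
  have hVR : U.R (V : Set G) = U.R X := by
    rw [← (l_RKB U).inj hVD (hpt o) ⟨1, one_mem _⟩ hinj]
    congr 1
    ext y
    constructor
    · rintro ⟨v, hv, rfl⟩
      exact hHX v (hVH hv) o hoX
    · intro hy
      obtain ⟨v, hv, rfl⟩ := htr y hy
      exact ⟨v, hv, rfl⟩
  have hVC : Conn U V := by
    refine ⟨hVD, ?_⟩
    intro L hL hLD hLR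
    refine le_antisymm hL ?_
    intro v hv
    have h1 : ∀ w ∈ V, Big U X ((fun g : G => (w * g) • o) '' (L : Set G)) := by
      intro w hw
      have hmD : DFn U (fun g : G => (w * g) • o) :=
        DFn_comp (g := fun g : G => g • o) (hpt o) (DFn_gmul (DFn_const w) DFn_id)
      refine ⟨_, DFn_image hmD hLD, ⟨_, 1, one_mem _, rfl⟩, ?_, subset_rfl, ?_⟩
      · rintro _ ⟨l, hl, rfl⟩
        exact hHX _ (hVH (V.mul_mem hw (hL hl))) o hoX
      · rw [(l_RKB U).inj hLD hmD ⟨1, one_mem _⟩]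
        · rw [← hVR]
          exact hLR
        · intro a ha b hb hab
          have h2 := hinj (V.mul_mem hw (hL ha)) (V.mul_mem hw (hL hb)) hab
          exact mul_left_cancel h2
    obtain ⟨y, ⟨l, hl, hy⟩, ⟨k, hk, hy2⟩⟩ := hXI.2.2 _ _ (h1 v hv) (h1 1 (one_mem _))
    have h2 : v * l = 1 * k := hinj (V.mul_mem hv (hL hl)) (V.mul_mem (one_mem _) (hL hk)) (by
      show (v * l) • o = (1 * k) • o
      exact hy.trans hy2.symm)
    have h3 : v = k * l⁻¹ := by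
      rw [eq_mul_inv_iff_mul_eq, h2, one_mul]
    rw [h3]
    exact L.mul_mem hk (L.inv_mem hl)
  let L : Subgroup G :=
    { carrier := {g | ∃ v ∈ V, ∃ t ∈ T, g = v * t}
      one_mem' := ⟨1, one_mem _, 1, one_mem _, (mul_one _).symm⟩
      mul_mem' := by
        rintro a b ⟨v, hv, t, ht, rfl⟩ ⟨w, hw, s, hs, rfl⟩
        refine ⟨v * (t * w * t⁻¹), V.mul_mem hv (hVn t (hTH ht) w hw), t * s,
          T.mul_mem ht hs, ?_⟩
        group
      inv_mem' := by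
        rintro a ⟨v, hv, t, ht, rfl⟩
        refine ⟨t⁻¹ * v⁻¹ * t⁻¹⁻¹, hVn t⁻¹ (hTH (T.inv_mem ht)) v⁻¹ (V.inv_mem hv), t⁻¹,
          T.inv_mem ht, ?_⟩
        group }
  have hLset : (L : Set G) = (fun p : G × G => p.1 * p.2) '' ((V : Set G) ×ˢ (T : Set G)) := by
    ext g
    constructor
    · rintro ⟨v, hv, t, ht, rfl⟩
      exact ⟨(v, t), ⟨hv, ht⟩, rfl⟩
    · rintro ⟨⟨v, t⟩, ⟨hv, ht⟩, rfl⟩
      exact ⟨v, hv, t, ht, rfl⟩
  have hprD : U.D ((V : Set G) ×ˢ (T : Set G)) := D_prod hVD hTD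
  have hprn : ((V : Set G) ×ˢ (T : Set G)).Nonempty := ⟨(1, 1), one_mem _, one_mem _⟩
  have hLinj : InjOn (fun p : G × G => p.1 * p.2) ((V : Set G) ×ˢ (T : Set G)) := by
    rintro ⟨v, t⟩ ⟨hv, ht⟩ ⟨w, s⟩ ⟨hw, hs⟩ h
    have h0 : v * t = w * s := h
    have h1 : w⁻¹ * v = s * t⁻¹ := by
      rw [eq_mul_inv_iff_mul_eq, mul_assoc, h0, inv_mul_cancel_left]
    have h2 : w⁻¹ * v = 1 := by
      refine hreg _ (V.mul_mem (V.inv_mem hw) hv) ?_
      rw [h1]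
      exact hTo _ (T.mul_mem hs (T.inv_mem ht))
    have h3 : v = w := (inv_mul_eq_one.1 h2).symm
    rw [h2] at h1
    have h4 : s = t := mul_inv_eq_one.1 h1.symm
    rw [h3, h4]
  have hLD : U.D (L : Set G) := by
    rw [hLset]
    exact DFn_image DG.mul hprD
  have hLH : L ≤ H := by
    rintro _ ⟨v, hv, t, ht, rfl⟩
    exact H.mul_mem (hVH hv) (hTH ht)
  have hLR : U.R (L : Set G) = U.R (H : Set G) := by
    rw [hLset, (l_RKB U).inj hprD DG.mul hprn hLinj, (l_RKB U).prod hVD hTD ⟨1, one_mem _⟩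
      ⟨1, one_mem _⟩, hHR, hVR]
  have hLe : L = H := hC.conn.2 L hLH hLD hLR.ge
  have hdec : ∀ h ∈ H, ∃ v ∈ V, ∃ t ∈ T, h = v * t := by
    intro h hh
    rw [← hLe] at hh
    exact hh
  refine ⟨htr, hreg, hVC, ?_, hdec⟩
  refine le_antisymm (fun t ht => ⟨hTH ht, hTo t ht⟩) ?_
  rintro h ⟨hh, hho⟩
  obtain ⟨v, hv, t, ht, rfl⟩ := hdec h hh
  have h1 : (v * t) • o = o := hho
  rw [mul_smul, hTo t ht] at h1
  rw [hreg v hv h1, one_mul]
  exact ht

end Pool.Agent.H45.S
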